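import Pool.Agent.H860EM.Main

set_option autoImplicit false

/-!
The Erdos-Moser theorem does not imply `RT²₂(1302)` over `ω`-models.

There are a Turing ideal `M` satisfying `EM` and a colouring in `M` such that every infinite set
in `M` realises the pattern of every permutation, in particular the pattern of `1302`.
-/

namespace Pool.Agent.Results.MP_507498_lc.EMNotImplies1302

open H860EM

theorem result :
    ∃ M : Set (Set ℕ), TuringIdeal M ∧ EM M ∧
      ∃ C ∈ M, ∀ H ∈ M, H.Infinite → ∀ (l : ℕ) (π : Equiv.Perm (Fin l)),
        Realises (col C) H (permPattern π) := by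
  obtain ⟨M, h1, h2, C, h3, -, h4⟩ := main
  exact ⟨M, h1, h2, C, h3, h4⟩

end Pool.Agent.Results.MP_507498_lc.EMNotImplies1302
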